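import Mathlib

/-!
# MP_61ae3e_pr, Q1: the answer is no

Adding edges can increase the maximum load of the local search allocation (in the stochastic
order).  On the vertex set `{0,1,2,3,4}` let `G` be the complete bipartite graph `K_{2,3}` with
parts `{0,1}` and `{2,3,4}` and let `G'` be `G` plus the single edge `01`.  After `m = 4` balls

  `P(max load of G >= 2) = 44/625`   and   `P(max load of G' >= 2) = 51/625`,

so the maximum load of the larger graph `G'` is not stochastically dominated by that of `G`.

The local search allocation is defined below for an arbitrary finite simple graph, as a Markov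
chain on load vectors, with `PMF`s.
-/

namespace Pool.Agent.Results.MP_61ae3e_pr.AddingAnEdge

open scoped ENNReal NNReal

section Model

variable {V : Type} [Fintype V] [DecidableEq V]

open Classical in
/-- The neighbours a ball sitting at `v` may move to when the (frozen) loads are `X`:
the neighbours of `v` of minimum load, provided that this minimum is smaller than the load
of `v` (otherwise the set is empty). -/
noncomputable def best (G : SimpleGraph V) (X : V → ℕ) (v : V) : Finset V :=
  Finset.univ.filter (fun u => G.Adj v u ∧ X u < X v ∧ ∀ w, G.Adj v w → X u ≤ X w)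

/-- The law of the final position of a ball which currently sits at `v`, the loads being frozen
at `X`; the first argument is the number of moves that are still allowed. -/
noncomputable def settle (G : SimpleGraph V) (X : V → ℕ) : ℕ → V → PMF V
  | 0, v => PMF.pure v
  | k + 1, v =>
      if h : (best G X v).Nonempty then
        (PMF.uniformOfFinset (best G X v) h).bind (settle G X k)
      else PMF.pure v

/-- The law of the load vector after one more ball: its birthplace `u` is uniform, and it then
performs the local search.  Every move strictly decreases the load of the current vertex, so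
`X u` moves are always enough (see `settle_eq`). -/
noncomputable def step [Nonempty V] (G : SimpleGraph V) (X : V → ℕ) : PMF (V → ℕ) :=
  (PMF.uniformOfFintype V).bind fun u =>
    (settle G X (X u) u).bind fun v => PMF.pure (Function.update X v (X v + 1))

/-- The law of the load vector after `m` more balls, starting from the load vector `X`. -/
noncomputable def alloc [Nonempty V] (G : SimpleGraph V) : ℕ → (V → ℕ) → PMF (V → ℕ)
  | 0, X => PMF.pure X
  | m + 1, X => (step G X).bind (alloc G m)

/-- `P(X_max^(m)(G) >= l)` for the local search allocation on `G` (started from empty loads). -/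
noncomputable def probMaxGe [Nonempty V] (G : SimpleGraph V) (m l : ℕ) : ℝ≥0∞ :=
  (alloc G m (fun _ => 0)).toOuterMeasure {X | l ≤ Finset.univ.sup X}

/-- The number of allowed moves in `settle` is immaterial as soon as it is at least the load of
the starting vertex: `settle` is the law of the end point of the full local search. -/
theorem settle_eq (G : SimpleGraph V) (X : V → ℕ) :
    ∀ (k : ℕ) (v : V), X v ≤ k → settle G X k v = settle G X (X v) v := by
  have key : ∀ (k : ℕ) (v : V), X v ≤ k → settle G X (k + 1) v = settle G X k v := by
    intro k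
    induction k with
    | zero =>
      intro v hv
      have hb : ¬ (best G X v).Nonempty := by
        rintro ⟨u, hu⟩
        simp only [best, Finset.mem_filter] at hu
        have := hu.2.2.1
        omega
      simp [settle, hb]
    | succ k ih =>
      intro v hv
      by_cases hb : (best G X v).Nonempty
      · have e1 : settle G X (k + 1 + 1) v
            = (PMF.uniformOfFinset (best G X v) hb).bind (settle G X (k + 1)) := by
          simp [settle, hb]
        have e2 : settle G X (k + 1) v
            = (PMF.uniformOfFinset (best G X v) hb).bind (settle G X k) := by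
          simp [settle, hb]
        rw [e1, e2]
        ext w
        simp only [PMF.bind_apply, PMF.uniformOfFinset_apply]
        refine tsum_congr fun u => ?_
        by_cases hu : u ∈ best G X v
        · have hlt : X u < X v := by
            simp only [best, Finset.mem_filter] at hu
            exact hu.2.2.1
          rw [ih u (by omega)]
        · simp [hu]
      · simp [settle, hb]
  intro k v hk
  induction k with
  | zero =>
    have : X v = 0 := by omega
    rw [this]
  | succ k ih =>
    rcases Nat.lt_or_ge k (X v) with h | h
    · have : X v = k + 1 := by omega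
      rw [this]
    · rw [key k v h, ih h]

end Model

section Compute

/-- adjacency table of the two graphs: `K_{2,3}` and, when `e = true`, the additional edge `01` -/
def adj (e : Bool) (a b : Fin 5) : Bool :=
  (decide (a.val < 2) && decide (2 ≤ b.val)) || (decide (b.val < 2) && decide (2 ≤ a.val)) ||
    (e && decide (a.val < 2) && decide (b.val < 2) && decide (a ≠ b))

/-- `K_{2,3}` (`e = false`) and `K_{2,3}` plus an edge (`e = true`). -/
def gr (e : Bool) : SimpleGraph (Fin 5) where
  Adj a b := adj e a b = true
  symm := ⟨by revert e; decide⟩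
  loopless := ⟨by revert e; decide⟩

def bestC (e : Bool) (X : Fin 5 → ℕ) (v : Fin 5) : Finset (Fin 5) :=
  Finset.univ.filter (fun u => adj e v u = true ∧ X u < X v ∧ ∀ w, adj e v w = true → X u ≤ X w)

theorem best_eq (e : Bool) (X : Fin 5 → ℕ) (v : Fin 5) : best (gr e) X v = bestC e X v := by
  ext u
  have h1 : u ∈ best (gr e) X v ↔
      (gr e).Adj v u ∧ X u < X v ∧ ∀ w, (gr e).Adj v w → X u ≤ X w := by
    simp [best]
  have h2 : u ∈ bestC e X v ↔
      adj e v u = true ∧ X u < X v ∧ ∀ w, adj e v w = true → X u ≤ X w := by
    simp [bestC]
  rw [h1, h2]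
  exact Iff.rfl

def settleC (e : Bool) (X : Fin 5 → ℕ) (f : Fin 5 → ℚ≥0) : ℕ → Fin 5 → ℚ≥0
  | 0, v => f v
  | k + 1, v =>
      if (bestC e X v).Nonempty then
        (∑ u ∈ bestC e X v, settleC e X f k u) / ((bestC e X v).card : ℚ≥0)
      else f v

def allocC (e : Bool) (l : ℕ) : ℕ → (Fin 5 → ℕ) → ℚ≥0
  | 0, X => if l ≤ Finset.univ.sup X then 1 else 0
  | m + 1, X =>
      (∑ u, settleC e X (fun v => allocC e l m (Function.update X v (X v + 1))) (X u) u) / 5

/-- the cast used throughout -/
noncomputable def c (q : ℚ≥0) : ℝ≥0∞ := ((q : ℝ≥0) : ℝ≥0∞)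

theorem c_sum_div {s : Finset (Fin 5)} (f : Fin 5 → ℚ≥0) {n : ℕ} (hn : n ≠ 0) :
    ∑ u ∈ s, ((n : ℝ≥0∞)⁻¹ * c (f u)) = c ((∑ u ∈ s, f u) / (n : ℚ≥0)) := by
  rw [← Finset.mul_sum]
  have h1 : c ((∑ u ∈ s, f u) / (n : ℚ≥0)) = c (∑ u ∈ s, f u) / (n : ℝ≥0∞) := by
    unfold c
    rw [NNRat.cast_div, ENNReal.coe_div (by simpa using hn)]
    simp
  rw [h1, ENNReal.div_eq_inv_mul]
  congr 1
  unfold c
  push_cast
  rfl

theorem settle_bind (e : Bool) (X : Fin 5 → ℕ) {β : Type} (g : Fin 5 → PMF β) (S : Set β)
    (f : Fin 5 → ℚ≥0) (hf : ∀ v, (g v).toOuterMeasure S = c (f v)) :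
    ∀ (k : ℕ) (v : Fin 5),
      ((settle (gr e) X k v).bind g).toOuterMeasure S = c (settleC e X f k v) := by
  intro k
  induction k with
  | zero => intro v; simp [settle, settleC, hf]
  | succ k ih =>
    intro v
    by_cases hb : (best (gr e) X v).Nonempty
    · have hb' : (bestC e X v).Nonempty := by rwa [best_eq] at hb
      have e1 : settle (gr e) X (k + 1) v
          = (PMF.uniformOfFinset (best (gr e) X v) hb).bind (settle (gr e) X k) := by
        simp [settle, hb]
      rw [e1, PMF.bind_bind, PMF.toOuterMeasure_bind_apply]
      simp only [ih, PMF.uniformOfFinset_apply]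
      rw [tsum_fintype]
      have e2 : settleC e X f (k + 1) v
          = (∑ u ∈ bestC e X v, settleC e X f k u) / ((bestC e X v).card : ℚ≥0) := by
        simp [settleC, hb']
      rw [e2, ← c_sum_div (fun u => settleC e X f k u) (Finset.card_pos.mpr hb').ne']
      rw [best_eq]
      simp only [ite_mul, zero_mul]
      rw [Finset.sum_ite_mem, Finset.univ_inter]
    · have hb' : ¬ (bestC e X v).Nonempty := by rwa [best_eq] at hb
      simp [settle, settleC, hb, hb', hf]

theorem alloc_eq (e : Bool) (l : ℕ) : ∀ (m : ℕ) (X : Fin 5 → ℕ),
    (alloc (gr e) m X).toOuterMeasure {Y | l ≤ Finset.univ.sup Y} = c (allocC e l m X) := by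
  intro m
  induction m with
  | zero =>
    intro X
    by_cases h : l ≤ Finset.univ.sup X <;> simp [alloc, allocC, h, c]
  | succ m ih =>
    intro X
    have e0 : alloc (gr e) (m + 1) X = (PMF.uniformOfFintype (Fin 5)).bind fun u =>
        (settle (gr e) X (X u) u).bind fun v =>
          alloc (gr e) m (Function.update X v (X v + 1)) := by
      simp [alloc, step, PMF.bind_bind, PMF.pure_bind]
    rw [e0, PMF.toOuterMeasure_bind_apply, tsum_fintype]
    have e1 : ∀ u : Fin 5, (((settle (gr e) X (X u) u).bind fun v =>
          alloc (gr e) m (Function.update X v (X v + 1))).toOuterMeasure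
            {Y | l ≤ Finset.univ.sup Y})
        = c (settleC e X (fun v => allocC e l m (Function.update X v (X v + 1))) (X u) u) :=
      fun u => settle_bind e X _ _ _ (fun v => ih _) (X u) u
    simp only [e1, PMF.uniformOfFintype_apply, Fintype.card_fin]
    have e2 := c_sum_div (s := Finset.univ)
      (fun u => settleC e X (fun v => allocC e l m (Function.update X v (X v + 1))) (X u) u)
      (n := 5) (by norm_num)
    rw [e2]
    simp [allocC]

end Compute

theorem vals : allocC false 2 4 (fun _ => 0) = 44 / 625 ∧
    allocC true 2 4 (fun _ => 0) = 51 / 625 := by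
  decide +kernel

theorem c_div {a b : ℕ} (hb : b ≠ 0) : c ((a : ℚ≥0) / (b : ℚ≥0)) = (a : ℝ≥0∞) / (b : ℝ≥0∞) := by
  unfold c
  rw [NNRat.cast_div, ENNReal.coe_div (by simpa using hb)]
  simp

/-- **MP_61ae3e_pr, Q1 (negated form).**  The local search allocation on `K_{2,3}` has
`P(max load >= 2) = 44/625` after four balls, while on `K_{2,3}` plus one edge this probability
is `51/625`; so it is false that the maximum load on a graph stochastically dominates the
maximum load on every supergraph with the same vertices. -/
theorem result :
    gr false ≤ gr true ∧ (gr true).edgeSet = insert s(0, 1) (gr false).edgeSet ∧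
    probMaxGe (gr false) 4 2 = 44 / 625 ∧ probMaxGe (gr true) 4 2 = 51 / 625 ∧
    probMaxGe (gr false) 4 2 < probMaxGe (gr true) 4 2 ∧
    ¬ (∀ (n : ℕ) (G G' : SimpleGraph (Fin (n + 1))), G ≤ G' →
        ∀ m l : ℕ, probMaxGe G' m l ≤ probMaxGe G m l) := by
  have h1 : gr false ≤ gr true := by
    intro a b hab
    revert a b
    change ∀ a b : Fin 5, adj false a b = true → adj true a b = true
    decide
  have h2 : (gr true).edgeSet = insert s(0, 1) (gr false).edgeSet := by
    ext z
    induction z using Sym2.ind with
    | _ a b =>
      rw [Set.mem_insert_iff, SimpleGraph.mem_edgeSet, SimpleGraph.mem_edgeSet, Sym2.eq_iff]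
      revert a b
      change ∀ a b : Fin 5, adj true a b = true ↔
        ((a = 0 ∧ b = 1) ∨ (a = 1 ∧ b = 0)) ∨ adj false a b = true
      decide
  have h3 : probMaxGe (gr false) 4 2 = 44 / 625 := by
    unfold probMaxGe
    rw [alloc_eq, vals.1]
    have := c_div (a := 44) (b := 625) (by norm_num)
    simpa using this
  have h4 : probMaxGe (gr true) 4 2 = 51 / 625 := by
    unfold probMaxGe
    rw [alloc_eq, vals.2]
    have := c_div (a := 51) (b := 625) (by norm_num)
    simpa using this
  have h5 : probMaxGe (gr false) 4 2 < probMaxGe (gr true) 4 2 := by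
    rw [h3, h4]
    exact ENNReal.div_lt_div_right (by norm_num) (by norm_num) (by norm_num)
  refine ⟨h1, h2, h3, h4, h5, ?_⟩
  intro h
  exact absurd (h 4 (gr false) (gr true) h1 4 2) (not_le.mpr h5)

end Pool.Agent.Results.MP_61ae3e_pr.AddingAnEdge
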